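import Mathlib

namespace Pool.Agent.Results.MP_1d2ce7_al.BlockingWord

open FreeGroup

/-- `w` is partially positive: some generator `a` occurs in the reduced word of `w`, and the
letter `a⁻¹` does not. -/
def PartiallyPositive {α : Type*} [DecidableEq α] (w : FreeGroup α) : Prop :=
  ∃ a : α, (a, true) ∈ w.toWord ∧ (a, false) ∉ w.toWord

/-- `w` is 3P (potentially partially positive). -/
def ThreeP {α : Type*} [DecidableEq α] (w : FreeGroup α) : Prop :=
  ∃ (φ : FreeGroup α ≃* FreeGroup α) (v : FreeGroup α), PartiallyPositive v ∧ w = φ v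

/-- A reduced word `u` is 3P-blocking: it is not a subword of any cyclically reduced 3P word. -/
def Blocking {α : Type*} [DecidableEq α] (u : List (α × Bool)) : Prop :=
  IsReduced u ∧
    ∀ w : FreeGroup α, ThreeP w → IsCyclicallyReduced w.toWord → ¬ u <:+: w.toWord

/-- `u` contains every reduced word of length two as a subword. -/
def Universal2 {α : Type*} (u : List (α × Bool)) : Prop :=
  ∀ x y : α × Bool, IsReduced [x, y] → [x, y] <:+: u

theorem redSub {α : Type*} {l m s t : List (α × Bool)} (h : IsReduced m)
    (e : s ++ l ++ t = m) : IsReduced l := by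
  subst e
  unfold FreeGroup.IsReduced at *
  rw [List.isChain_append] at h
  have h1 := h.1
  rw [List.isChain_append] at h1
  exact h1.2.1

section
variable {α : Type*} [DecidableEq α]

/-- number of occurrences of `a⁻¹` in the reduced word -/
def neg (a : α) (g : FreeGroup α) : ℕ := g.toWord.count (a, false)

theorem neg_mul_le (a : α) (g h : FreeGroup α) : neg a (g * h) ≤ neg a g + neg a h := by
  unfold neg
  have := (toWord_mul_sublist g h).count_le (a, false)
  rwa [List.count_append] at this

theorem neg_le_norm (a : α) (g : FreeGroup α) : neg a g ≤ norm g := by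
  unfold neg FreeGroup.norm
  exact List.count_le_length

theorem neg_pow_le (a : α) (g : FreeGroup α) (n : ℕ) : neg a (g ^ n) ≤ n * neg a g := by
  induction n with
  | zero => simp [neg]
  | succ n ih =>
    rw [pow_succ]
    calc _ ≤ neg a (g ^ n) + neg a g := neg_mul_le _ _ _
      _ ≤ n * neg a g + neg a g := by omega
      _ = _ := by ring

theorem neg_conj_pow_le (a : α) (k v : FreeGroup α) (hv : neg a v = 0) (n : ℕ) :
    neg a ((k * v * k⁻¹) ^ n) ≤ 2 * norm k := by
  rw [conj_pow]
  calc _ ≤ neg a (k * v ^ n) + neg a k⁻¹ := neg_mul_le _ _ _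
    _ ≤ neg a k + neg a (v ^ n) + neg a k⁻¹ := by
      have := neg_mul_le a k (v ^ n)
      omega
    _ ≤ norm k + 0 + norm k⁻¹ := by
      have h1 := neg_le_norm a k
      have h2 := neg_le_norm a k⁻¹
      have h3 := neg_pow_le a v n
      rw [hv] at h3
      omega
    _ = _ := by rw [norm_inv_eq]; ring

theorem le_neg_pow (a : α) (g : FreeGroup α)
    (h1 : (g⁻¹).toWord.head? = some (a, true)) (h2 : g.toWord.head? ≠ some (a, true)) (n : ℕ) :
    n ≤ neg a (g ^ n) := by
  have hlast : g.toWord.getLast? = some (a, false) := by
    rw [toWord_inv, invRev, List.head?_reverse, List.getLast?_map] at h1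
    rcases h : g.toWord.getLast? with _ | x
    · simp [h] at h1
    · rw [h] at h1
      simp only [Option.map_some, Option.some.injEq, Prod.mk.injEq, Bool.not_eq_true'] at h1
      rw [← h1.1, ← h1.2]
  have hc : IsCyclicallyReduced g.toWord := by
    refine ⟨isReduced_toWord, fun x hx y hy hxy => ?_⟩
    rw [hlast] at hx
    simp only [Option.mem_def, Option.some.injEq] at hx hy
    subst hx
    rw [hy] at h2
    by_contra hne
    apply h2
    rcases y with ⟨y1, y2⟩
    simp only at hxy hne
    subst hxy
    cases y2 <;> simp_all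
  have hmem : (a, false) ∈ g.toWord := List.mem_of_getLast? hlast
  unfold neg
  rw [toWord_pow, (hc.flatten_replicate n).isReduced.reduce_eq, List.count_flatten]
  simp only [List.map_replicate, List.sum_replicate, smul_eq_mul]
  have : 1 ≤ g.toWord.count (a, false) := List.one_le_count_iff.mpr hmem
  nlinarith

theorem no_conj (a : α) (k v g : FreeGroup α) (hv : neg a v = 0) (hg : g = k * v * k⁻¹)
    (h1 : (g⁻¹).toWord.head? = some (a, true)) (h2 : g.toWord.head? ≠ some (a, true)) :
    False := by
  have A := le_neg_pow a g h1 h2 (2 * norm k + 1)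
  have B := neg_conj_pow_le a k v hv (2 * norm k + 1)
  rw [← hg] at B
  omega

/-- Multiplying by one letter. -/
theorem toWord_mul_letter (g : FreeGroup α) (x : α × Bool) :
    ((g * mk [x]).toWord = g.toWord ++ [x]) ∨
      (g.toWord = (g * mk [x]).toWord ++ [(x.1, !x.2)]) := by
  by_cases h : g.toWord.getLast? = some (x.1, !x.2)
  · right
    obtain ⟨L, hL⟩ : ∃ L, g.toWord = L ++ [(x.1, !x.2)] := by
      rw [List.getLast?_eq_some_iff] at h
      exact h
    have hred : IsReduced L := by
      have := isReduced_toWord (x := g)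
      rw [hL] at this
      exact (redSub this (s := []) (t := [(x.1, !x.2)]) (by simp))
    have hg : g * mk [x] = mk L := by
      rw [← mk_toWord (x := g), hL, mul_mk]
      apply Quot.sound
      simpa using (Red.Step.not (L₁ := L) (L₂ := []) (x := x.1) (b := !x.2))
    rw [hL, hg, toWord_mk, hred.reduce_eq]
  · left
    have hred : IsReduced (g.toWord ++ [x]) := by
      have h1 := isReduced_toWord (x := g)
      unfold FreeGroup.IsReduced at h1 ⊢
      rw [List.isChain_append]
      refine ⟨h1, by simp, fun y hy z hz hyz => ?_⟩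
      simp only [List.head?_cons, Option.mem_def, Option.some.injEq] at hz hy
      subst hz
      by_contra hne
      apply h
      rw [hy]
      rcases y with ⟨y1, y2⟩
      rcases x with ⟨x1, x2⟩
      simp only at hyz hne ⊢
      subst hyz
      cases y2 <;> cases x2 <;> simp_all
    conv_lhs => rw [← mk_toWord (x := g)]
    rw [mul_mk, toWord_mk, hred.reduce_eq]

theorem head_mul (g h : FreeGroup α) (hn : norm h < norm g) :
    (g * h).toWord.head? = g.toWord.head? := by
  obtain ⟨l, hl, rfl⟩ : ∃ l : List (α × Bool), l.length = norm h ∧ mk l = h :=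
    ⟨h.toWord, rfl, mk_toWord⟩
  rw [← hl] at hn
  clear hl
  induction l generalizing g with
  | nil => simp [← one_eq_mk]
  | cons x l ih =>
    have e : g * mk (x :: l) = (g * mk [x]) * mk l := by
      rw [mul_assoc, mul_mk]; rfl
    rw [e]
    simp only [List.length_cons] at hn
    rcases toWord_mul_letter g x with h1 | h1
    · rw [ih, h1, List.head?_append]
      · have : g.toWord ≠ [] := by
          intro h0
          simp [FreeGroup.norm, h0] at hn
        obtain ⟨y, hy⟩ : ∃ y, g.toWord.head? = some y := by
          rcases hh : g.toWord with _ | ⟨y, l'⟩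
          · exact absurd hh this
          · exact ⟨y, rfl⟩
        simp [hy]
      · have : norm (g * mk [x]) = norm g + 1 := by simp [FreeGroup.norm, h1]
        omega
    · have h2 : norm g = norm (g * mk [x]) + 1 := by
        unfold FreeGroup.norm
        conv_lhs => rw [h1]
        simp
      rw [ih _ (by omega)]
      conv_rhs => rw [h1]
      rw [List.head?_append]
      have : (g * mk [x]).toWord ≠ [] := by
        intro h0
        simp [FreeGroup.norm, h0] at h2 hn
        omega
      obtain ⟨y, hy⟩ : ∃ y, (g * mk [x]).toWord.head? = some y := by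
        rcases hh : (g * mk [x]).toWord with _ | ⟨y, l'⟩
        · exact absurd hh this
        · exact ⟨y, rfl⟩
      simp [hy]

theorem norm_map_le (f : FreeGroup α →* FreeGroup α) (L : ℕ)
    (hL : ∀ x : α × Bool, norm (f (mk [x])) ≤ L) (g : FreeGroup α) :
    norm (f g) ≤ L * norm g := by
  obtain ⟨l, hl, rfl⟩ : ∃ l : List (α × Bool), l.length = norm g ∧ mk l = g :=
    ⟨g.toWord, rfl, mk_toWord⟩
  rw [← hl]
  clear hl
  induction l with
  | nil => simp [← one_eq_mk]
  | cons x l ih =>
    have e : (mk (x :: l) : FreeGroup α) = mk [x] * mk l := by rw [mul_mk]; rfl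
    rw [e, _root_.map_mul]
    calc _ ≤ norm (f (mk [x])) + norm (f (mk l)) := norm_mul_le _ _
      _ ≤ L + L * l.length := by
        have := hL x
        omega
      _ = _ := by simp; ring

theorem norm_mk {l : List (α × Bool)} (h : IsReduced l) : norm (mk l) = l.length := by
  rw [FreeGroup.norm, toWord_mk, h.reduce_eq]

variable [Fintype α]

theorem exists_bound (f : FreeGroup α →* FreeGroup α) :
    ∃ L : ℕ, ∀ x : α × Bool, norm (f (mk [x])) ≤ L :=
  ⟨Finset.univ.sup (fun x : α × Bool => norm (f (mk [x]))),
    fun x => Finset.le_sup (f := fun x : α × Bool => norm (f (mk [x]))) (Finset.mem_univ x)⟩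

/-- the set of `g` such that the word of `ψ g` starts with the letter `a` -/
def St (ψ : FreeGroup α ≃* FreeGroup α) (a : α) (l : List (α × Bool)) : Prop :=
  (ψ (mk l)).toWord.head? = some (a, true)

theorem clopen (ψ : FreeGroup α ≃* FreeGroup α) (a : α) :
    ∃ N : ℕ, ∀ p q : List (α × Bool), IsReduced (p ++ q) → N ≤ p.length →
      (St ψ a (p ++ q) ↔ St ψ a p) := by
  obtain ⟨L, hL⟩ := exists_bound (ψ : FreeGroup α →* FreeGroup α)
  obtain ⟨L', hL'⟩ := exists_bound (ψ.symm : FreeGroup α →* FreeGroup α)
  refine ⟨L' * L + 1, fun p q => ?_⟩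
  induction q using List.reverseRecOn with
  | nil => simp
  | append_singleton q x ih =>
    intro hred hp
    have hred' : IsReduced (p ++ q) := (redSub hred (s := []) (t := [x]) (by simp))
    rw [← ih hred' hp]
    unfold St
    have e : (mk (p ++ (q ++ [x])) : FreeGroup α) = mk (p ++ q) * mk [x] := by
      rw [mul_mk]; simp
    rw [e, _root_.map_mul, head_mul]
    have h1 : norm (mk (p ++ q)) = (p ++ q).length := norm_mk hred'
    have h2 : norm (mk (p ++ q)) ≤ L' * norm (ψ (mk (p ++ q))) := by
      have := norm_map_le (ψ.symm : FreeGroup α →* FreeGroup α) L' hL' (ψ (mk (p ++ q)))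
      simpa using this
    have h3 : norm (ψ (mk [x])) ≤ L := hL x
    by_contra hcon
    push Not at hcon
    have h4 : norm (ψ (mk (p ++ q))) ≤ L := hcon.trans h3
    have h5 : L' * norm (ψ (mk (p ++ q))) ≤ L' * L := Nat.mul_le_mul_left _ h4
    simp only [List.length_append] at h1
    omega

theorem split (ψ : FreeGroup α ≃* FreeGroup α) (a : α) :
    ∃ (N : ℕ) (p : List (α × Bool)) (q₁ q₂ : α × Bool), q₁ ≠ q₂ ∧
      IsReduced (p ++ [q₁]) ∧ IsReduced (p ++ [q₂]) ∧
      (∀ q, IsReduced (p ++ [q₁] ++ q) → N ≤ (p ++ [q₁] ++ q).length →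
        St ψ a (p ++ [q₁] ++ q)) ∧
      (∀ q, IsReduced (p ++ [q₂] ++ q) → N ≤ (p ++ [q₂] ++ q).length →
        ¬ St ψ a (p ++ [q₂] ++ q)) := by
  obtain ⟨N, hN⟩ := clopen ψ a
  by_contra hcon
  push Not at hcon
  -- purity of all reduced words
  have key : ∀ (k : ℕ) (p : List (α × Bool)), IsReduced p → N ≤ k + p.length →
      (∀ q, IsReduced (p ++ q) → N ≤ (p ++ q).length → St ψ a (p ++ q)) ∨
      (∀ q, IsReduced (p ++ q) → N ≤ (p ++ q).length → ¬ St ψ a (p ++ q)) := by
    intro k
    induction k with
    | zero =>
      intro p hp hlen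
      by_cases h : St ψ a p
      · left
        intro q hq _
        exact (hN p q hq (by omega)).mpr h
      · right
        intro q hq _ hq'
        exact h ((hN p q hq (by omega)).mp hq')
    | succ k ih =>
      intro p hp hlen
      by_cases hlong : N ≤ p.length
      · exact ih p hp (by omega)
      by_cases hex : ∃ q₁, IsReduced (p ++ [q₁]) ∧
          (∀ q, IsReduced (p ++ [q₁] ++ q) → N ≤ (p ++ [q₁] ++ q).length →
            St ψ a (p ++ [q₁] ++ q))
      · left
        obtain ⟨q₁, hq₁, hpos⟩ := hex
        intro q hq hl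
        rcases q with _ | ⟨x, q⟩
        · simp at hl
          omega
        have hx : IsReduced (p ++ [x]) := (redSub hq (s := []) (t := q) (by simp))
        by_cases hxq : q₁ = x
        · subst hxq
          have := hpos q (by simpa using hq) (by simpa using hl)
          simpa using this
        rcases ih (p ++ [x]) hx (by simp; omega) with h | h
        · have := h q (by simpa using hq) (by simpa using hl)
          simpa using this
        · exfalso
          obtain ⟨q', hq', hl', hs'⟩ := hcon N p q₁ x hxq hq₁ hx hpos
          exact h q' hq' hl' hs'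
      · right
        push Not at hex
        intro q hq hl
        rcases q with _ | ⟨x, q⟩
        · simp at hl
          omega
        have hx : IsReduced (p ++ [x]) := (redSub hq (s := []) (t := q) (by simp))
        rcases ih (p ++ [x]) hx (by simp; omega) with h | h
        · exfalso
          obtain ⟨q', hq', hl', hs'⟩ := hex x hx
          exact hs' (h q' hq' hl')
        · have := h q (by simpa using hq) (by simpa using hl)
          simpa using this
  -- the empty word is not pure
  obtain ⟨L, hL⟩ := exists_bound (ψ : FreeGroup α →* FreeGroup α)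
  have big : ∀ g : FreeGroup α, norm (ψ g) ≤ L * norm g := by
    intro g
    simpa using norm_map_le (ψ : FreeGroup α →* FreeGroup α) L hL g
  set M := L * N + 1 with hM
  have hlen : ∀ g : FreeGroup α, norm (ψ g) = M → N ≤ g.toWord.length := by
    intro g hg
    have := big g
    rw [hg] at this
    by_contra hlt
    push Not at hlt
    have h2 : L * norm g ≤ L * N := Nat.mul_le_mul_left _ (by unfold FreeGroup.norm; omega)
    omega
  have hMpos : M ≠ 0 := by omega
  rcases key N [] IsReduced.nil (by simp) with h | h
  · set g := ψ.symm ((of a ^ M)⁻¹) with hg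
    have hψ : ψ g = (of a ^ M)⁻¹ := by simp [hg]
    have h1 := h g.toWord (by simpa using isReduced_toWord) (by
      simpa using hlen g (by rw [hψ, norm_inv_eq, norm_of_pow]))
    simp only [List.nil_append, St, mk_toWord, hψ, toWord_inv, toWord_of_pow] at h1
    have h2 : (a, true) ∈ invRev (List.replicate M (a, true)) := List.mem_of_mem_head? h1
    simp [invRev] at h2
  · set g := ψ.symm (of a ^ M) with hg
    have hψ : ψ g = of a ^ M := by simp [hg]
    have h1 := h g.toWord (by simpa using isReduced_toWord) (by
      simpa using hlen g (by rw [hψ, norm_of_pow]))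
    apply h1
    simp only [List.nil_append, St, mk_toWord, hψ, toWord_of_pow]
    rw [List.head?_replicate]
    simp [hMpos]

omit [Fintype α] in
theorem isReduced_invRev {l : List (α × Bool)} (h : IsReduced l) : IsReduced (invRev l) := by
  rw [isReduced_iff_reduce_eq, reduce_invRev, h.reduce_eq]

theorem blocking_of_universal (u : List (α × Bool)) (hu : IsReduced u) (huni : Universal2 u) :
    Blocking u := by
  refine ⟨hu, ?_⟩
  rintro w ⟨φ, v, ⟨a, _, ha⟩, rfl⟩ hc hinf
  obtain ⟨N, p, q₁, q₂, hne, hr₁, hr₂, hpos, hneg⟩ := split φ.symm a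
  have h2 : IsReduced [(q₁.1, !q₁.2), q₂] := by
    unfold FreeGroup.IsReduced
    simp only [List.isChain_cons_cons, List.isChain_singleton, and_true]
    intro h1
    rcases q₁ with ⟨a1, b1⟩
    rcases q₂ with ⟨a2, b2⟩
    simp only at h1 ⊢
    subst h1
    cases b1 <;> cases b2 <;> simp_all
  obtain ⟨s, t, hst⟩ := (huni _ _ h2).trans hinf
  set w := φ v with hw
  -- the rotated word
  set w₁ : List (α × Bool) := [q₂] ++ (t ++ s) ++ [(q₁.1, !q₁.2)] with hw₁
  have hw₁c : IsCyclicallyReduced w₁ := by
    have h3 := (hc.flatten_replicate 2).isReduced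
    simp only [List.replicate_succ, List.replicate_zero, List.flatten_cons, List.flatten_nil,
      List.append_nil] at h3
    rw [← hst] at h3
    have h4 : IsReduced w₁ := (redSub h3 (s := s ++ [(q₁.1, !q₁.2)]) (t := [q₂] ++ t) (by simp [hw₁]))
    rw [hw₁]
    have h5 := (isCyclicallyReduced_cons_append_iff (L := t ++ s) (a := (q₁.1, !q₁.2))
      (b := q₂)).mpr ⟨by simpa [hw₁] using h4, by
        have := h2
        unfold FreeGroup.IsReduced at this
        simpa using this⟩
    simpa using h5
  have hjoin : IsReduced (p ++ w₁ ++ invRev p) := by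
    have h3 : IsReduced (p ++ [q₂] ++ (t ++ s ++ [(q₁.1, !q₁.2)])) := by
      refine IsReduced.append_overlap hr₂ ?_ (by simp)
      have := hw₁c.isReduced
      simpa [hw₁] using this
    have h4 : IsReduced ([(q₁.1, !q₁.2)] ++ invRev p) := by
      have := isReduced_invRev hr₁
      simpa [invRev] using this
    have h5 := IsReduced.append_overlap (L₁ := p ++ [q₂] ++ (t ++ s)) (L₂ := [(q₁.1, !q₁.2)])
      (L₃ := invRev p) (by simpa using h3) h4 (by simp)
    simpa [hw₁] using h5
  have hpow : IsReduced (p ++ (List.replicate (N + 1) w₁).flatten ++ invRev p) :=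
    IsReduced.append_flatten_replicate_append hw₁c hjoin (by omega)
  have hlen : N ≤ (p ++ (List.replicate (N + 1) w₁).flatten ++ invRev p).length := by
    have h0 : 1 ≤ w₁.length := by simp [hw₁]
    simp only [List.length_append, List.length_flatten, List.map_replicate,
      List.sum_replicate, smul_eq_mul]
    nlinarith
  set W := p ++ (List.replicate (N + 1) w₁).flatten ++ invRev p with hW
  -- membership of the two ends
  have hA : ¬ St φ.symm a W := by
    have e : W = p ++ [q₂] ++ ((t ++ s) ++ [(q₁.1, !q₁.2)] ++
        (List.replicate N w₁).flatten ++ invRev p) := by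
      rw [hW, List.replicate_succ, List.flatten_cons]
      simp [List.append_assoc, hw₁]
    rw [e]
    apply hneg
    · rw [← e]; exact hpow
    · rw [← e]; exact hlen
  have hB : St φ.symm a (invRev W) := by
    have e : W = (p ++ (List.replicate N w₁).flatten ++ [q₂] ++ (t ++ s)) ++
        [(q₁.1, !q₁.2)] ++ invRev p := by
      rw [hW, List.replicate_succ', List.flatten_append, List.flatten_singleton]
      simp [List.append_assoc, hw₁]
    have e2 : invRev W = p ++ [q₁] ++
        invRev (p ++ (List.replicate N w₁).flatten ++ [q₂] ++ (t ++ s)) := by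
      rw [e]
      simp [invRev, Function.comp_def]
    rw [e2]
    apply hpos
    · rw [← e2]; exact isReduced_invRev hpow
    · rw [← e2, invRev_length]; exact hlen
  -- conjugacy
  set k : FreeGroup α := mk p * (mk (s ++ [(q₁.1, !q₁.2)]))⁻¹ with hk
  have hWk : (mk W : FreeGroup α) = k * w ^ (N + 1) * k⁻¹ := by
    have hflat : ∀ n : ℕ, (mk (List.replicate n w₁).flatten : FreeGroup α) = (mk w₁) ^ n := by
      intro n
      rw [pow_mk]
    have hw' : w = mk (s ++ [(q₁.1, !q₁.2)]) * mk ([q₂] ++ t) := by
      rw [← mk_toWord (x := w), ← hst, mul_mk]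
      simp
    have hw₁' : (mk w₁ : FreeGroup α) =
        (mk (s ++ [(q₁.1, !q₁.2)]))⁻¹ * w * (mk (s ++ [(q₁.1, !q₁.2)])) := by
      rw [hw', hw₁]
      have : ([q₂] ++ (t ++ s) ++ [(q₁.1, !q₁.2)] : List (α × Bool)) =
        ([q₂] ++ t) ++ (s ++ [(q₁.1, !q₁.2)]) := by simp
      rw [this, ← mul_mk]
      group
    rw [hW, ← mul_mk, ← mul_mk, hflat, ← inv_mk, hw₁', hk]
    have h6 : ((mk (s ++ [(q₁.1, !q₁.2)]))⁻¹ * w * (mk (s ++ [(q₁.1, !q₁.2)])) :
        FreeGroup α) ^ (N + 1) =
        (mk (s ++ [(q₁.1, !q₁.2)]))⁻¹ * w ^ (N + 1) * (mk (s ++ [(q₁.1, !q₁.2)])) := by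
      have := conj_pow (i := N + 1) (a := (mk (s ++ [(q₁.1, !q₁.2)]) : FreeGroup α)⁻¹) (b := w)
      simpa using this
    rw [h6]
    group
  have hv0 : neg a v = 0 := by
    unfold neg
    exact List.count_eq_zero_of_not_mem ha
  refine no_conj a (φ.symm k) (v ^ (N + 1)) (φ.symm (mk W)) ?_ ?_ ?_ ?_
  · have := neg_pow_le a v (N + 1)
    rw [hv0] at this
    omega
  · rw [hWk, _root_.map_mul, _root_.map_mul, _root_.map_pow, _root_.map_inv, hw]
    simp
  · have : (φ.symm (mk W))⁻¹ = φ.symm (mk (invRev W)) := by
      rw [← _root_.map_inv, inv_mk]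
    rw [this]
    exact hB
  · exact hA

/-- existence of a universal word, when there are at least two generators -/
theorem exists_universal [Nontrivial α] : ∃ u : List (α × Bool), IsReduced u ∧ Universal2 u := by
  have key : ∀ S : List ((α × Bool) × (α × Bool)), ∃ u : List (α × Bool), IsReduced u ∧
      ∀ x ∈ S, IsReduced [x.1, x.2] → [x.1, x.2] <:+: u := by
    intro S
    induction S with
    | nil => exact ⟨[], IsReduced.nil, by simp⟩
    | cons x S ih =>
      obtain ⟨u, hu, hS⟩ := ih
      by_cases hx : IsReduced [x.1, x.2]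
      · -- choose a connecting word
        obtain ⟨m, hm⟩ : ∃ m : List (α × Bool), IsReduced (u ++ m ++ [x.1]) := by
          by_cases h : IsReduced (u ++ [x.1])
          · exact ⟨[], by simpa using h⟩
          · obtain ⟨b, hb⟩ := exists_ne x.1.1
            refine ⟨[(b, true)], ?_⟩
            unfold FreeGroup.IsReduced at *
            rw [List.isChain_append] at h ⊢
            have hlast : ∀ y ∈ u.getLast?, y.1 = x.1.1 := by
              intro y hy
              by_contra hne
              apply h
              refine ⟨hu, by simp, fun y' hy' z hz hyz => ?_⟩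
              exfalso
              have e1 : y' = y := by
                simp only [Option.mem_def] at hy hy'
                rw [hy] at hy'
                exact (Option.some.inj hy').symm
              have e2 : z = x.1 := by simpa using hz.symm
              subst e1 e2
              exact hne hyz
            refine ⟨?_, by simp, fun y hy z hz hyz => ?_⟩
            · rw [List.isChain_append]
              refine ⟨hu, by simp, fun y hy z hz hyz => ?_⟩
              exfalso
              have e2 : z = (b, true) := by simpa using hz.symm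
              subst e2
              exact hb (hyz.symm.trans (hlast y hy))
            · exfalso
              have e1 : y = (b, true) := by simpa using hy.symm
              have e2 : z = x.1 := by simpa using hz.symm
              subst e1 e2
              exact hb hyz
        refine ⟨u ++ m ++ [x.1] ++ [x.2], ?_, ?_⟩
        · exact IsReduced.append_overlap hm (by simpa using hx) (by simp)
        · intro y hy hyr
          rcases List.mem_cons.mp hy with rfl | hy
          · exact ⟨u ++ m, [], by simp⟩
          · obtain ⟨s, t, hst⟩ := hS y hy hyr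
            exact ⟨s, t ++ m ++ [x.1] ++ [x.2], by rw [← hst]; simp⟩
      · refine ⟨u, hu, fun y hy hyr => ?_⟩
        rcases List.mem_cons.mp hy with rfl | hy
        · exact absurd hyr hx
        · exact hS y hy hyr
  obtain ⟨u, hu, h⟩ := key (Finset.univ : Finset ((α × Bool) × (α × Bool))).toList
  exact ⟨u, hu, fun x y hxy => h (x, y) (by simp) hxy⟩

end

/-- For every `r ≥ 2` the free group `F_r` has a 3P-blocking word.  Indeed every reduced word
containing all reduced two-letter words is 3P-blocking, and such words exist. -/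
theorem result (r : ℕ) (hr : 2 ≤ r) :
    (∃ u : List (Fin r × Bool), Blocking u) ∧
    (∃ u : List (Fin r × Bool), IsReduced u ∧ Universal2 u) ∧
    (∀ u : List (Fin r × Bool), IsReduced u → Universal2 u → Blocking u) := by
  have : Nontrivial (Fin r) := Fin.nontrivial_iff_two_le.mpr hr
  obtain ⟨u, hu, hu2⟩ := exists_universal (α := Fin r)
  exact ⟨⟨u, blocking_of_universal u hu hu2⟩, ⟨u, hu, hu2⟩,
    fun u hu hu2 => blocking_of_universal u hu hu2⟩

end Pool.Agent.Results.MP_1d2ce7_al.BlockingWord
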